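import Mathlib

set_option autoImplicit false

/-!
# Width against determinantal complexity over commutative rings: a counterexample

The width `w(f)` of homogeneous polynomials over commutative rings is not bounded by a function of
the degree times the determinantal complexity `dc(f)`, already for quadratic forms.

The example. Let `A = ℤ / 2 ^ a` and let `R = A[ε]` be the ring of dual numbers over `A`. Let `Y`,
`Z` be generic `a × a` matrices (`2 a²` variables). The `2a × 2a` matrix with blocks `1, Y, -ε Z, 2`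
has the determinant `det (2 + ε Z Y) = 2 ^ a + ε 2 ^ (a - 1) tr (Z Y) = ε 2 ^ (a - 1) tr (Z Y)`, since
`ε² = 0` and `2 ^ a = 0`. So `f = ε 2 ^ (a - 1) tr (Z Y)` has `dc(f) ≤ 2 a`.

On the other hand, let `f` be the sum of `n` products of two linear forms. Comparing coefficients,
first in the variables, then of `ε`, gives `2 ^ (a - 1) • 1 = U V` over `A` for a
`2 a² × 4 n` matrix `U` and a `4 n × 2 a²` matrix `V`. Lift `U`, `V` to integral matrices; their
product is `2 ^ (a - 1) (1 + 2 Q)` and has an odd determinant up to a power of two. So it is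
invertible over `ℚ` and `2 a² ≤ 4 n`.
-/

namespace Pool.Agent.Results.MP_d1af35_lc.WidthUnbounded

open MvPolynomial Matrix

/-- `HasWidth d f n` for `n ≥ 1`: there are `n × n` matrices `A_1, …, A_d`, all of whose entries are
homogeneous linear forms (homogeneous polynomials of degree one), such that `f` is the bottom-right
entry of the product `A_1 A_2 ⋯ A_d`. For `n = 0` it says that `f = 0`. -/
def HasWidth {R : Type} [CommRing R] {m : ℕ} (d : ℕ) (f : MvPolynomial (Fin m) R) : ℕ → Prop
  | 0 => f = 0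
  | n + 1 => ∃ A : Fin d → Matrix (Fin (n + 1)) (Fin (n + 1)) (MvPolynomial (Fin m) R),
      (∀ k i j, (A k i j).IsHomogeneous 1) ∧
        f = (List.ofFn A).prod (Fin.last n) (Fin.last n)

/-- The width `w(f)` of a homogeneous polynomial `f` of degree `d`: the least `n` such that `f` is the
bottom-right entry of a product of `d` matrices of size `n × n` whose entries are homogeneous
linear forms; `w(0) = 0`. -/
noncomputable def width {R : Type} [CommRing R] {m : ℕ} (d : ℕ) (f : MvPolynomial (Fin m) R) : ℕ :=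
  sInf {n | HasWidth d f n}

/-- The determinantal complexity `dc(f)`: the least `n` such that `f` is the determinant of an
`n × n` matrix whose entries are polynomials of degree at most one. -/
noncomputable def dc {R : Type} [CommRing R] {m : ℕ} (f : MvPolynomial (Fin m) R) : ℕ :=
  sInf {n | ∃ M : Matrix (Fin n) (Fin n) (MvPolynomial (Fin m) R),
    (∀ i j, (M i j).totalDegree ≤ 1) ∧ f = M.det}

/-- The evaluation of a linear form is additive. -/
theorem eval_add_of_linear {R : Type} [CommRing R] {m : ℕ} {l : MvPolynomial (Fin m) R}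
    (hl : l.IsHomogeneous 1) (u v : Fin m → R) : eval (u + v) l = eval u l + eval v l := by
  classical
  rw [l.as_sum, map_sum, map_sum, map_sum, ← Finset.sum_add_distrib]
  refine Finset.sum_congr rfl fun c hc => ?_
  have h1 : c.degree = 1 := by
    have := hl (mem_support_iff.1 hc)
    rw [← this, Finsupp.degree_eq_weight_one]
    rfl
  obtain ⟨i, hi⟩ : ∃ i, c = Finsupp.single i 1 := by
    have hne : c ≠ 0 := by
      rintro rfl
      simp at h1
    obtain ⟨i, hi⟩ := Finsupp.ne_iff.1 hne
    refine ⟨i, ?_⟩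
    have h2 : Finsupp.single i 1 ≤ c := by
      rw [Finsupp.single_le_iff]
      have : c i ≠ 0 := by simpa using hi
      omega
    have h3 : c - Finsupp.single i 1 = 0 := by
      have h4 : (c - Finsupp.single i 1 + Finsupp.single i 1).degree = 1 := by
        rw [tsub_add_cancel_of_le h2, h1]
      rw [map_add, Finsupp.degree_single] at h4
      have h5 : (c - Finsupp.single i 1).degree = 0 := by omega
      simpa [Finsupp.degree_eq_zero_iff] using h5
    rw [← tsub_add_cancel_of_le h2, h3, zero_add]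
  rw [hi]
  simp [eval_monomial, mul_add]

/-- The determinant of `D + ε N` for a scalar matrix `D` and `ε ^ 2 = 0`. -/
theorem det_scalar_add {S : Type} [CommRing S] {a : ℕ} (ha : 1 ≤ a) (t ε : S) (hε : ε * ε = 0)
    (N : Matrix (Fin a) (Fin a) S) :
    (Matrix.scalar (Fin a) t + ε • N).det = t ^ a + ε * t ^ (a - 1) * N.trace := by
  nontriviality S
  have hcp : ((-(ε • N)).charpoly) =
      Polynomial.X ^ a + Polynomial.C (ε * N.trace) * Polynomial.X ^ (a - 1) := by
    ext k
    rcases lt_or_ge a k with hk | hk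
    · rw [Polynomial.coeff_eq_zero_of_natDegree_lt]
      · have h1 : k ≠ a := by omega
        have h2 : k ≠ a - 1 := by omega
        rw [Polynomial.coeff_add, Polynomial.coeff_X_pow, Polynomial.coeff_C_mul_X_pow,
          if_neg h1, if_neg h2, add_zero]
      · rw [Matrix.charpoly_natDegree_eq_dim]
        simpa using hk
    · obtain ⟨j, hj⟩ : ∃ j, j ≤ a ∧ k = a - j := ⟨a - k, by omega, by omega⟩
      have h0 := Matrix.charpoly_coeff_eq_sum_minors (-(ε • N)) j (by simpa using hj.1)
      rw [Fintype.card_fin, ← hj.2] at h0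
      rw [h0]
      rcases Nat.lt_or_ge j 2 with h2 | h2
      · interval_cases j
        · simp only [tsub_zero] at hj
          have h3 : k ≠ a - 1 := by omega
          rw [Polynomial.coeff_add, Polynomial.coeff_X_pow, Polynomial.coeff_C_mul_X_pow,
            if_pos hj.2, if_neg h3, add_zero]
          simp
        · have h3 : k ≠ a := by omega
          rw [Polynomial.coeff_add, Polynomial.coeff_X_pow, Polynomial.coeff_C_mul_X_pow,
            if_neg h3, if_pos hj.2, zero_add, Finset.powersetCard_one, Finset.sum_map]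
          simp [Matrix.trace, Finset.mul_sum]
      · have h5 : ∀ s ∈ Finset.powersetCard j (Finset.univ : Finset (Fin a)),
            ((-(ε • N)).submatrix (Subtype.val : s → Fin a) (Subtype.val : s → Fin a)).det = 0 := by
          intro s hs
          have h6 : (-(ε • N)).submatrix (Subtype.val : s → Fin a) (Subtype.val : s → Fin a) =
              ε • (-N).submatrix (Subtype.val : s → Fin a) (Subtype.val : s → Fin a) := by
            ext i j
            simp
          rw [h6, Matrix.det_smul, Fintype.card_coe, (Finset.mem_powersetCard.1 hs).2]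
          obtain ⟨j', rfl⟩ : ∃ j', j = j' + 2 := ⟨j - 2, by omega⟩
          rw [pow_add, pow_two, hε, mul_zero, zero_mul]
        rw [Finset.sum_eq_zero h5, mul_zero]
        have h7 : k ≠ a := by omega
        have h8 : k ≠ a - 1 := by omega
        rw [Polynomial.coeff_add, Polynomial.coeff_X_pow, Polynomial.coeff_C_mul_X_pow,
          if_neg h7, if_neg h8, add_zero]
  have h := Matrix.eval_charpoly (-(ε • N)) t
  rw [sub_neg_eq_add] at h
  rw [← h, hcp]
  simp
  ring

/-- If `2 ^ (a - 1) • 1 = U * V` over `ℤ / 2 ^ a`, then the inner dimension is at least the size. -/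
theorem card_le_of_mul {a : ℕ} (ha : 1 ≤ a) {ι κ : Type} [Fintype ι] [DecidableEq ι] [Fintype κ]
    (U : Matrix ι κ (ZMod (2 ^ a))) (V : Matrix κ ι (ZMod (2 ^ a)))
    (h : U * V = (2 : ZMod (2 ^ a)) ^ (a - 1) • (1 : Matrix ι ι (ZMod (2 ^ a)))) :
    Fintype.card ι ≤ Fintype.card κ := by
  have hne : NeZero (2 ^ a) := ⟨by positivity⟩
  let U' : Matrix ι κ ℤ := U.map fun x => (x.val : ℤ)
  let V' : Matrix κ ι ℤ := V.map fun x => (x.val : ℤ)
  have hmap : (U' * V').map (Int.castRingHom (ZMod (2 ^ a))) = U * V := by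
    rw [Matrix.map_mul]
    congr 1
    · ext i j
      simp [U']
    · ext i j
      simp [V']
  have hdvd : ∀ i j, ((2 ^ a : ℕ) : ℤ) ∣ (U' * V') i j -
      2 ^ (a - 1) * (1 : Matrix ι ι ℤ) i j := by
    intro i j
    rw [← ZMod.intCast_zmod_eq_zero_iff_dvd]
    have h1 := congrFun (congrFun hmap i) j
    rw [h, Matrix.map_apply] at h1
    push_cast
    have h2 : (((U' * V') i j : ℤ) : ZMod (2 ^ a)) = (Int.castRingHom (ZMod (2 ^ a))) ((U' * V') i j) :=
      rfl
    rw [h2, h1]
    by_cases hij : i = j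
    · subst hij; simp
    · simp [hij]
  choose Q hQ using hdvd
  have hprod : U' * V' = (2 : ℤ) ^ (a - 1) • (1 + (2 : ℤ) • Matrix.of Q) := by
    ext i j
    have h1 := hQ i j
    have h2 : ((2 ^ a : ℕ) : ℤ) = 2 ^ (a - 1) * 2 := by
      rw [← pow_succ, Nat.sub_add_cancel ha]
      push_cast
      rfl
    rw [h2] at h1
    simp only [Matrix.smul_apply, Matrix.add_apply, Matrix.of_apply, smul_eq_mul]
    linear_combination h1
  have hdet1 : (1 + (2 : ℤ) • Matrix.of Q).det ≠ 0 := by
    intro h0
    have h1 := congrArg (Int.castRingHom (ZMod 2)) h0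
    rw [RingHom.map_det, map_zero] at h1
    have h2 : (Int.castRingHom (ZMod 2)).mapMatrix (1 + (2 : ℤ) • Matrix.of Q) = 1 := by
      rw [map_add, map_one]
      have : (Int.castRingHom (ZMod 2)).mapMatrix ((2 : ℤ) • Matrix.of Q) = 0 := by
        ext i j
        have h3 : ((2 : ℤ) : ZMod 2) = 0 := by decide
        simp only [RingHom.mapMatrix_apply, Matrix.map_apply, Matrix.smul_apply, smul_eq_mul,
          map_mul, Matrix.zero_apply]
        have h4 : (Int.castRingHom (ZMod 2)) 2 = 0 := h3
        rw [h4, zero_mul]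
      rw [this, add_zero]
    rw [h2, Matrix.det_one] at h1
    exact one_ne_zero h1
  have hdet : (U' * V').det ≠ 0 := by
    rw [hprod, Matrix.det_smul]
    exact mul_ne_zero (pow_ne_zero _ (pow_ne_zero _ two_ne_zero)) hdet1
  let W : Matrix ι ι ℚ := (U'.map (Int.castRingHom ℚ)) * (V'.map (Int.castRingHom ℚ))
  have hW : W = (Int.castRingHom ℚ).mapMatrix (U' * V') := by
    simp only [W, RingHom.mapMatrix_apply]
    rw [Matrix.map_mul]
  have hWdet : IsUnit W := by
    rw [Matrix.isUnit_iff_isUnit_det, hW, ← RingHom.map_det, isUnit_iff_ne_zero]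
    simpa using hdet
  calc Fintype.card ι = W.rank := (Matrix.rank_of_isUnit W hWdet).symm
    _ ≤ (U'.map (Int.castRingHom ℚ)).rank := Matrix.rank_mul_le_left _ _
    _ ≤ Fintype.card κ := Matrix.rank_le_card_width _

section Example

variable (a : ℕ)

/-- the ring of dual numbers over `ℤ / 2 ^ a` -/
abbrev RR : Type := DualNumber (ZMod (2 ^ a))

/-- the index type of the variables: the entries of two `a × a` matrices -/
abbrev Idx : Type := (Fin a × Fin a) ⊕ (Fin a × Fin a)

/-- the number of variables -/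
abbrev mm : ℕ := Fintype.card (Idx a)

/-- the numbering of the variables -/
noncomputable def nb : Idx a ≃ Fin (mm a) := Fintype.equivFin (Idx a)

/-- the coefficient `ε 2 ^ (a - 1)` -/
noncomputable def cf : RR a := DualNumber.eps * 2 ^ (a - 1)

/-- the quadratic form `ε 2 ^ (a - 1) tr (Z Y)` -/
noncomputable def ff : MvPolynomial (Fin (mm a)) (RR a) :=
  ∑ p : Fin a × Fin a, C (cf a) * (X (nb a (Sum.inl p)) * X (nb a (Sum.inr p)))

theorem eval_ff (u : Fin (mm a) → RR a) :
    eval u (ff a) = ∑ p : Fin a × Fin a, cf a * (u (nb a (Sum.inl p)) * u (nb a (Sum.inr p))) := by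
  simp [ff]

/-- the unit vectors -/
noncomputable def ev (s : Idx a) : Fin (mm a) → RR a := Pi.single (nb a s) 1

theorem ev_apply (s t : Idx a) : ev a s (nb a t) = if s = t then 1 else 0 := by
  unfold ev
  rw [Pi.single_apply]
  simp [eq_comm]

theorem polar_ff (s t : Idx a) :
    eval (ev a s + ev a t.swap) (ff a) - eval (ev a s) (ff a) - eval (ev a t.swap) (ff a) =
      if s = t then cf a else 0 := by
  rw [eval_ff, eval_ff, eval_ff, ← Finset.sum_sub_distrib, ← Finset.sum_sub_distrib]
  simp only [Pi.add_apply, ev_apply]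
  rcases s with p | p <;> rcases t with q | q
  · simp only [Sum.swap_inl, Sum.inl.injEq, reduceCtorEq, if_false]
    rw [Finset.sum_eq_single p]
    · by_cases hpq : p = q
      · subst hpq; simp
      · have : q ≠ p := fun h => hpq h.symm
        simp [hpq, this]
    · intro b _ hb
      have : p ≠ b := fun h => hb h.symm
      simp [this]
    · simp
  · simp only [Sum.swap_inr, Sum.inl.injEq, reduceCtorEq, if_false]
    refine Finset.sum_eq_zero fun b _ => ?_
    simp
  · simp only [Sum.swap_inl, Sum.inr.injEq, reduceCtorEq, if_false]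
    refine Finset.sum_eq_zero fun b _ => ?_
    simp
  · simp only [Sum.swap_inr, Sum.inr.injEq, reduceCtorEq, if_false]
    rw [Finset.sum_eq_single p]
    · by_cases hpq : p = q
      · subst hpq; simp
      · have : q ≠ p := fun h => hpq h.symm
        simp [hpq, this]
    · intro b _ hb
      have : p ≠ b := fun h => hb h.symm
      simp [this]
    · simp

variable {a}

theorem snd_cf : (cf a).snd = 2 ^ (a - 1) := by
  have h : (2 : RR a) ^ (a - 1) = TrivSqZeroExt.inl ((2 : ZMod (2 ^ a)) ^ (a - 1)) := by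
    rw [← TrivSqZeroExt.inl_pow]
    rfl
  unfold cf
  rw [h]
  simp [TrivSqZeroExt.snd_mul]

theorem two_pow_ne (ha : 1 ≤ a) : (2 : ZMod (2 ^ a)) ^ (a - 1) ≠ 0 := by
  intro h
  have h1 : ((2 ^ (a - 1) : ℕ) : ZMod (2 ^ a)) = 0 := by push_cast; exact h
  rw [ZMod.natCast_eq_zero_iff] at h1
  have h2 := Nat.le_of_dvd (by positivity) h1
  have h3 : 2 ^ (a - 1) < 2 ^ a := Nat.pow_lt_pow_right (by norm_num) (by omega)
  omega

theorem cf_ne (ha : 1 ≤ a) : cf a ≠ 0 := by
  intro h
  have h1 := snd_cf (a := a)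
  rw [h] at h1
  exact two_pow_ne ha h1.symm

theorem ff_ne (ha : 1 ≤ a) : ff a ≠ 0 := by
  intro h
  have h1 := polar_ff a (Sum.inl (⟨0, ha⟩, ⟨0, ha⟩)) (Sum.inl (⟨0, ha⟩, ⟨0, ha⟩))
  rw [h] at h1
  simp only [map_zero, sub_zero, if_true] at h1
  exact cf_ne ha h1.symm

theorem ff_hom : (ff a).IsHomogeneous 2 := by
  unfold ff
  refine IsHomogeneous.sum _ _ _ fun p _ => ?_
  have h := (isHomogeneous_C (Fin (mm a)) (cf a)).mul
    ((isHomogeneous_X (RR a) (nb a (Sum.inl p))).mul (isHomogeneous_X (RR a) (nb a (Sum.inr p))))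
  simpa using h

/-- the lower bound for the width -/
theorem width_lower (ha : 1 ≤ a) {n : ℕ} (h : HasWidth 2 (ff a) n) : a ^ 2 ≤ 2 * n := by
  cases n with
  | zero => exact absurd h (ff_ne ha)
  | succ n =>
    obtain ⟨A, hA, hf⟩ := h
    have hprod : ff a = ∑ k, A 0 (Fin.last n) k * A 1 k (Fin.last n) := by
      rw [hf]
      simp [List.ofFn_succ, Matrix.mul_apply]
    -- values of the linear forms on unit vectors
    let l : Fin (n + 1) → Idx a → RR a := fun k s => eval (ev a s) (A 0 (Fin.last n) k)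
    let r : Fin (n + 1) → Idx a → RR a := fun k s => eval (ev a s) (A 1 k (Fin.last n))
    have hpol : ∀ s t : Idx a, ∑ k, (l k s * r k t.swap + l k t.swap * r k s) =
        if s = t then cf a else 0 := by
      intro s t
      rw [← polar_ff a s t, hprod]
      simp only [map_sum, map_mul]
      rw [← Finset.sum_sub_distrib, ← Finset.sum_sub_distrib]
      refine Finset.sum_congr rfl fun k _ => ?_
      rw [eval_add_of_linear (hA 0 _ _), eval_add_of_linear (hA 1 _ _)]
      simp only [l, r]
      ring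
    let U : Matrix (Idx a) (Fin (n + 1) × Fin 4) (ZMod (2 ^ a)) := Matrix.of fun s kc =>
      ![(l kc.1 s).fst, (l kc.1 s).snd, (r kc.1 s).fst, (r kc.1 s).snd] kc.2
    let V : Matrix (Fin (n + 1) × Fin 4) (Idx a) (ZMod (2 ^ a)) := Matrix.of fun kc t =>
      ![(r kc.1 t.swap).snd, (r kc.1 t.swap).fst, (l kc.1 t.swap).snd, (l kc.1 t.swap).fst] kc.2
    have hUV : U * V = (2 : ZMod (2 ^ a)) ^ (a - 1) • (1 : Matrix (Idx a) (Idx a) (ZMod (2 ^ a))) := by
      ext s t
      have h1 := congrArg TrivSqZeroExt.snd (hpol s t)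
      rw [TrivSqZeroExt.snd_sum] at h1
      have h2 : (U * V) s t = ∑ k, (l k s * r k t.swap + l k t.swap * r k s).snd := by
        rw [Matrix.mul_apply, Fintype.sum_prod_type]
        refine Finset.sum_congr rfl fun k _ => ?_
        simp only [U, V, Matrix.of_apply, Fin.sum_univ_four, TrivSqZeroExt.snd_add,
          TrivSqZeroExt.snd_mul, smul_eq_mul, MulOpposite.smul_eq_mul_unop, MulOpposite.unop_op]
        simp only [Matrix.cons_val_zero, Matrix.cons_val_one, Matrix.cons_val]
        ring
      rw [h2, h1]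
      by_cases hst : s = t
      · subst hst
        simp [snd_cf]
      · simp [hst]
    have hcard := card_le_of_mul ha U V hUV
    have h1 : Fintype.card (Idx a) = a * a + a * a := by simp [Idx]
    have h2 : Fintype.card (Fin (n + 1) × Fin 4) = (n + 1) * 4 := by simp
    rw [h1, h2] at hcard
    have h3 : a ^ 2 = a * a := by ring
    rw [h3]
    omega

/-- the form is a sum of `a ^ 2` products -/
theorem width_nonempty (ha : 1 ≤ a) : ∃ n, HasWidth 2 (ff a) n := by
  obtain ⟨n, hn⟩ : ∃ n, a * a = n + 1 := ⟨a * a - 1, by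
    have : 1 ≤ a * a := Nat.one_le_iff_ne_zero.2 (by positivity)
    omega⟩
  let e : Fin (n + 1) ≃ Fin a × Fin a := (finCongr hn.symm).trans finProdFinEquiv.symm
  refine ⟨n + 1, ![Matrix.of fun _ k => C (cf a) * X (nb a (Sum.inl (e k))),
    Matrix.of fun k _ => X (nb a (Sum.inr (e k)))], ?_, ?_⟩
  · intro k i j
    fin_cases k
    · have h := (isHomogeneous_C (Fin (mm a)) (cf a)).mul
        (isHomogeneous_X (RR a) (nb a (Sum.inl (e j))))
      simpa using h
    · simpa using isHomogeneous_X (RR a) (nb a (Sum.inr (e i)))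
  · simp only [List.ofFn_succ, List.ofFn_zero, List.prod_cons, List.prod_nil, mul_one,
      Matrix.mul_apply]
    unfold ff
    rw [← e.sum_comp]
    refine Finset.sum_congr rfl fun k _ => ?_
    simp [mul_assoc]

/-- the upper bound for the determinantal complexity -/
theorem dc_upper (ha : 1 ≤ a) : dc (ff a) ≤ 2 * a := by
  refine Nat.sInf_le ?_
  let S := MvPolynomial (Fin (mm a)) (RR a)
  let Y : Matrix (Fin a) (Fin a) S := Matrix.of fun i j => X (nb a (Sum.inl (i, j)))
  let Z : Matrix (Fin a) (Fin a) S := Matrix.of fun j i => X (nb a (Sum.inr (i, j)))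
  let E : S := C DualNumber.eps
  have hE : E * E = 0 := by
    simp only [E]
    rw [← C_mul, DualNumber.eps_mul_eps, C_0]
  let M : Matrix (Fin a ⊕ Fin a) (Fin a ⊕ Fin a) S :=
    Matrix.fromBlocks 1 Y (-(E • Z)) (Matrix.scalar (Fin a) (2 : S))
  have hdet : M.det = ff a := by
    simp only [M]
    rw [Matrix.det_fromBlocks_one₁₁]
    have h1 : Matrix.scalar (Fin a) (2 : S) - -(E • Z) * Y =
        Matrix.scalar (Fin a) (2 : S) + E • (Z * Y) := by
      rw [Matrix.neg_mul, sub_neg_eq_add, Matrix.smul_mul]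
    rw [h1, det_scalar_add ha _ _ hE]
    have h2 : (2 : S) ^ a = 0 := by
      have h3 : (2 : S) ^ a = ((2 ^ a : ℕ) : S) := by push_cast; rfl
      have h4 : ((2 ^ a : ℕ) : S) = C (algebraMap (ZMod (2 ^ a)) (RR a) ((2 ^ a : ℕ) : ZMod (2 ^ a))) := by
        rw [map_natCast, map_natCast]
      rw [h3, h4, ZMod.natCast_self, map_zero, C_0]
    rw [h2, zero_add]
    have h5 : E * (2 : S) ^ (a - 1) = C (cf a) := by
      simp only [E, cf, C_mul, C_pow]
      congr 2
    have h6 : (Z * Y).trace =
        ∑ p : Fin a × Fin a, (X (nb a (Sum.inl p)) * X (nb a (Sum.inr p)) : S) := by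
      rw [Fintype.sum_prod_type, Matrix.trace, Finset.sum_comm]
      simp only [Matrix.diag_apply, Matrix.mul_apply, Y, Z, Matrix.of_apply]
      exact Finset.sum_congr rfl fun i _ => Finset.sum_congr rfl fun j _ => mul_comm _ _
    rw [h5, h6, ff, Finset.mul_sum]
  have hdeg : ∀ i j, (M i j).totalDegree ≤ 1 := by
    intro i j
    rcases i with i | i <;> rcases j with j | j
    · simp only [M, Matrix.fromBlocks_apply₁₁, Matrix.one_apply]
      split_ifs <;> simp
    · simp only [M, Y, Matrix.fromBlocks_apply₁₂, Matrix.of_apply]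
      exact (isHomogeneous_X _ _).totalDegree_le
    · simp only [M, Z, E, Matrix.fromBlocks_apply₂₁, Matrix.neg_apply, Matrix.smul_apply,
        Matrix.of_apply, smul_eq_mul]
      refine (totalDegree_neg _).le.trans ?_
      have h := (isHomogeneous_C (Fin (mm a)) (DualNumber.eps : RR a)).mul
        (isHomogeneous_X (RR a) (nb a (Sum.inr (j, i))))
      simpa using h.totalDegree_le
    · simp only [M, Matrix.fromBlocks_apply₂₂, Matrix.scalar_apply, Matrix.diagonal_apply]
      split_ifs
      · have h : (2 : S) = C (2 : RR a) := (map_ofNat C 2).symm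
        rw [h]
        exact (totalDegree_C _).le.trans (Nat.zero_le _)
      · exact totalDegree_zero.le.trans (Nat.zero_le _)
  let e : Fin (2 * a) ≃ Fin a ⊕ Fin a := (finCongr (two_mul a)).trans finSumFinEquiv.symm
  refine ⟨M.submatrix e e, fun i j => hdeg _ _, ?_⟩
  rw [Matrix.det_submatrix_equiv_self, hdet]

end Example

/-- **Theorem.** For every `a ≥ 1` there are a finite commutative ring `R` and a nonzero quadratic
form `f` over `R` with `dc(f) ≤ 2 a` and `w(f) ≥ a ^ 2 / 2`. Consequently there is no function `ξ`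
with `w(f) ≤ ξ(d) dc(f)` for all commutative rings `R`, all `d ≥ 1` and all homogeneous polynomials
`f` of degree `d` over `R`. -/
theorem result :
    (∀ a : ℕ, 1 ≤ a → ∃ (R : Type) (_ : CommRing R) (_ : Finite R) (m : ℕ)
      (f : MvPolynomial (Fin m) R), f.IsHomogeneous 2 ∧ f ≠ 0 ∧ dc f ≤ 2 * a ∧
        a ^ 2 ≤ 2 * width 2 f) ∧
    ¬ ∃ ξ : ℕ → ℕ, ∀ (R : Type) (_ : CommRing R) (m d : ℕ), 1 ≤ d →
      ∀ f : MvPolynomial (Fin m) R, f.IsHomogeneous d → width d f ≤ ξ d * dc f := by
  have key : ∀ a : ℕ, 1 ≤ a → (ff a).IsHomogeneous 2 ∧ ff a ≠ 0 ∧ dc (ff a) ≤ 2 * a ∧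
      a ^ 2 ≤ 2 * width 2 (ff a) := fun a ha =>
    ⟨ff_hom, ff_ne ha, dc_upper ha, width_lower ha (Nat.sInf_mem (width_nonempty ha))⟩
  refine ⟨fun a ha => ?_, ?_⟩
  · have hne : NeZero (2 ^ a) := ⟨by positivity⟩
    have hfin : Finite (RR a) := inferInstanceAs (Finite (ZMod (2 ^ a) × ZMod (2 ^ a)))
    exact ⟨RR a, inferInstance, hfin, mm a, ff a, key a ha⟩
  · rintro ⟨ξ, hξ⟩
    obtain ⟨h1, h2, h3, h4⟩ := key (4 * ξ 2 + 1) (by omega)
    have h5 := hξ (RR (4 * ξ 2 + 1)) inferInstance (mm (4 * ξ 2 + 1)) 2 (by omega)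
      (ff (4 * ξ 2 + 1)) h1
    have h6 : ξ 2 * dc (ff (4 * ξ 2 + 1)) ≤ ξ 2 * (2 * (4 * ξ 2 + 1)) :=
      Nat.mul_le_mul_left _ h3
    nlinarith

end Pool.Agent.Results.MP_d1af35_lc.WidthUnbounded
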